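import Pool.Agent.H29.ENR.Stmts9

set_option autoImplicit false

namespace Pool.ENR

namespace FR1aux

open Subgroup

/-- normalisers grow in a `p`-group -/
theorem grow {G : Type} [Group G] [Finite G] {p : ℕ} [Fact p.Prime] (P D : Subgroup G)
    (hP : IsPGroup p P) (hDP : D ≤ P) (hne : ¬ P ≤ D) :
    ∃ x ∈ P, x ∉ D ∧ ∀ y, y ∈ D ↔ x * y * x⁻¹ ∈ D := by
  have hnil : Group.IsNilpotent P := hP.isNilpotent
  have hcond : NormalizerCondition P := Group.normalizerCondition_of_isNilpotent
  have h1 : D.subgroupOf P < ⊤ := by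
    rw [lt_top_iff_ne_top]
    intro h
    apply hne
    intro x hx
    have : (⟨x, hx⟩ : P) ∈ D.subgroupOf P := by rw [h]; exact Subgroup.mem_top _
    exact this
  have h2 := hcond _ h1
  obtain ⟨x, hx, hxD⟩ := SetLike.exists_of_lt h2
  refine ⟨x, x.2, hxD, fun y => ?_⟩
  rw [Subgroup.mem_normalizer_iff] at hx
  constructor
  · intro hy
    exact (hx ⟨y, hDP hy⟩).1 hy
  · intro hy
    have hyP : y ∈ P := by
      have h3 := P.mul_mem (P.mul_mem (P.inv_mem x.2) (hDP hy)) x.2
      have h4 : (x : G)⁻¹ * ((x : G) * y * (x : G)⁻¹) * (x : G) = y := by group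
      rwa [h4] at h3
    exact (hx ⟨y, hyP⟩).2 hy

theorem smul_iff {G : Type} [Group G] {p : ℕ} (R : Sylow p G) (c : G) :
    ∃ R' : Sylow p G, ∀ x, x ∈ R' ↔ c⁻¹ * x * c ∈ R := by
  refine ⟨c • R, fun x => ?_⟩
  constructor
  · rintro ⟨y, hy, rfl⟩
    change c⁻¹ * (c * y * c⁻¹) * c ∈ R
    have : c⁻¹ * (c * y * c⁻¹) * c = y := by group
    rw [this]
    exact hy
  · intro h
    refine ⟨c⁻¹ * x * c, h, ?_⟩
    change c * (c⁻¹ * x * c) * c⁻¹ = x
    group

theorem sylow_conj {G : Type} [Group G] [Finite G] {p : ℕ} [Fact p.Prime] (S T : Sylow p G) :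
    ∃ n : G, ∀ x, x ∈ T ↔ n⁻¹ * x * n ∈ S := by
  obtain ⟨n, hn⟩ := MulAction.exists_smul_eq G S T
  refine ⟨n, fun x => ?_⟩
  rw [← hn]
  constructor
  · rintro ⟨y, hy, rfl⟩
    change n⁻¹ * (n * y * n⁻¹) * n ∈ S
    have : n⁻¹ * (n * y * n⁻¹) * n = y := by group
    rw [this]
    exact hy
  · intro h
    refine ⟨n⁻¹ * x * n, h, ?_⟩
    change n * (n⁻¹ * x * n) * n⁻¹ = x
    group

/-- the centraliser step -/
theorem cent {N : Type} [Group N] [Finite N] {p : ℕ} [Fact p.Prime] (C : Subgroup N) (hC : C.Normal)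
    (hpow : ∀ (n : N) (k : ℕ), n ^ k = 1 → ¬ p ∣ k → n ∈ C) (S T : Sylow p N) :
    ∃ c ∈ C, ∀ x, x ∈ T ↔ c⁻¹ * x * c ∈ S := by
  obtain ⟨n, hn⟩ := sylow_conj S T
  have hq : IsPGroup p (N ⧸ C) := by
    intro g
    obtain ⟨m, rfl⟩ := QuotientGroup.mk_surjective g
    obtain ⟨a, b, hb, hab⟩ := Nat.exists_eq_pow_mul_and_not_dvd (orderOf_pos m).ne' p
      (Fact.out : p.Prime).ne_one
    refine ⟨a, ?_⟩
    rw [← QuotientGroup.mk_pow, QuotientGroup.eq_one_iff]
    apply hpow _ b _ hb
    rw [← pow_mul, ← hab]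
    exact pow_orderOf_eq_one m
  obtain ⟨j, hj⟩ := IsPGroup.iff_card.1 hq
  have htop : (S : Subgroup N) ⊔ C = ⊤ := by
    rw [← Subgroup.index_eq_one]
    have d1 : ((S : Subgroup N) ⊔ C).index ∣ (S : Subgroup N).index :=
      Subgroup.index_dvd_of_le le_sup_left
    have d2 : ((S : Subgroup N) ⊔ C).index ∣ C.index := Subgroup.index_dvd_of_le le_sup_right
    have hCi : C.index = p ^ j := hj
    rw [hCi] at d2
    have hco : Nat.Coprime (S : Subgroup N).index (p ^ j) := by
      apply Nat.Coprime.pow_right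
      rw [Nat.coprime_comm, Nat.Prime.coprime_iff_not_dvd Fact.out]
      exact S.not_dvd_index
    exact Nat.eq_one_of_dvd_coprimes hco d1 d2
  have hnm : n ∈ C ⊔ (S : Subgroup N) := by
    rw [sup_comm, htop]
    exact Subgroup.mem_top n
  rw [Subgroup.mem_sup_of_normal_left] at hnm
  obtain ⟨c, hc, s, hs, rfl⟩ := hnm
  refine ⟨c, hc, fun x => ?_⟩
  rw [hn x]
  constructor
  · intro h
    have h1 := S.mul_mem (S.mul_mem hs h) (S.inv_mem hs)
    have h2 : s * ((c * s)⁻¹ * x * (c * s)) * s⁻¹ = c⁻¹ * x * c := by group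
    rwa [h2] at h1
  · intro h
    have h1 := S.mul_mem (S.mul_mem (S.inv_mem hs) h) hs
    have h2 : s⁻¹ * (c⁻¹ * x * c) * s = (c * s)⁻¹ * x * (c * s) := by group
    rwa [h2] at h1

theorem card_lt {G : Type} [Group G] [Finite G] (D E : Subgroup G) (h : D ≤ E) (x : G)
    (hx : x ∈ E) (hxD : x ∉ D) : Nat.card D < Nat.card E := by
  by_contra hcon
  have := Subgroup.eq_of_le_of_card_ge h (not_lt.1 hcon)
  rw [this] at hxD
  exact hxD hx

end FR1aux

open FR1aux Subgroup in
theorem fr1_thm : FR1Stmt := by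
  intro G _ _ p _ hFr
  have key : ∀ k : ℕ, ∀ P Q : Sylow p G,
      Nat.card G - Nat.card ((P : Subgroup G) ⊓ (Q : Subgroup G) : Subgroup G) ≤ k →
      ∃ c : G, (∀ x, x ∈ P → x ∈ Q → c * x = x * c) ∧ ∀ x, x ∈ P ↔ c * x * c⁻¹ ∈ Q := by
    intro k
    induction k with
    | zero =>
      intro P Q h
      have h1 : Nat.card ((P : Subgroup G) ⊓ (Q : Subgroup G) : Subgroup G) = Nat.card G :=
        le_antisymm (Subgroup.card_le_card_group _) (by omega)
      have h2 : ((P : Subgroup G) ⊓ (Q : Subgroup G) : Subgroup G) = ⊤ :=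
        Subgroup.eq_top_of_card_eq _ h1
      have h3 : ∀ x : G, x ∈ P ∧ x ∈ Q := by
        intro x
        have : x ∈ ((P : Subgroup G) ⊓ (Q : Subgroup G) : Subgroup G) := by
          rw [h2]; exact Subgroup.mem_top x
        exact this
      refine ⟨1, fun x _ _ => by simp, fun x => ?_⟩
      exact ⟨fun _ => (h3 _).2, fun _ => (h3 _).1⟩
    | succ k ih =>
      intro P Q hk
      by_cases hPQ : (P : Subgroup G) ≤ (Q : Subgroup G)
      · have h1 : P = Q := by
          apply Sylow.ext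
          exact (P.is_maximal' Q.isPGroup' hPQ).symm
        subst h1
        refine ⟨1, fun x _ _ => by simp, fun x => by simp⟩
      have hQP : ¬ (Q : Subgroup G) ≤ (P : Subgroup G) := by
        intro h
        apply hPQ
        have h1 := Q.is_maximal' P.isPGroup' h
        exact le_of_eq h1
      set D : Subgroup G := (P : Subgroup G) ⊓ (Q : Subgroup G) with hD
      have hDp : IsPGroup p D := P.isPGroup'.to_le inf_le_left
      obtain ⟨x, hxP, hxD, hxN⟩ := grow (p := p) (P : Subgroup G) D P.isPGroup' inf_le_left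
        (fun h => hPQ (h.trans inf_le_right))
      obtain ⟨y, hyQ, hyD, hyN⟩ := grow (p := p) (Q : Subgroup G) D Q.isPGroup' inf_le_right
        (fun h => hQP (h.trans inf_le_left))
      -- the normaliser
      let N : Subgroup G := Subgroup.normalizer (D : Set G)
      have hN : ∀ g, g ∈ N ↔ ∀ z, z ∈ D ↔ g * z * g⁻¹ ∈ D := fun g => Subgroup.mem_normalizer_iff
      let C : Subgroup N := (Subgroup.centralizer (D : Set G)).subgroupOf N
      have hCm : ∀ g : N, g ∈ C ↔ ∀ z ∈ D, z * (g : G) = (g : G) * z := by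
        intro g
        rw [Subgroup.mem_subgroupOf, Subgroup.mem_centralizer_iff]
        rfl
      have hCn : C.Normal := by
        constructor
        intro c hc n
        rw [hCm] at hc ⊢
        intro z hz
        have h1 : (n : G)⁻¹ * z * (n : G) ∈ D := by
          have := ((hN _).1 n.2 ((n : G)⁻¹ * z * (n : G))).2 (by
            have e : (n : G) * ((n : G)⁻¹ * z * (n : G)) * (n : G)⁻¹ = z := by group
            rw [e]; exact hz)
          exact this
        have h2 := hc _ h1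
        change z * ((n : G) * (c : G) * (n : G)⁻¹) = ((n : G) * (c : G) * (n : G)⁻¹) * z
        calc z * ((n : G) * (c : G) * (n : G)⁻¹)
            = (n : G) * (((n : G)⁻¹ * z * (n : G)) * (c : G)) * (n : G)⁻¹ := by group
          _ = (n : G) * ((c : G) * ((n : G)⁻¹ * z * (n : G))) * (n : G)⁻¹ := by rw [h2]
          _ = ((n : G) * (c : G) * (n : G)⁻¹) * z := by group
      have hpow : ∀ (n : N) (k : ℕ), n ^ k = 1 → ¬ p ∣ k → n ∈ C := by
        intro n k hnk hpk
        rw [hCm]
        intro z hz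
        have h1 : (n : G) ^ k = 1 := by
          have := congrArg Subtype.val hnk
          simpa using this
        exact (hFr D hDp (n : G) k ((hN _).1 n.2) h1 hpk z hz).symm
      -- Sylow subgroups of the normaliser
      let PN : Subgroup N := (P : Subgroup G).subgroupOf N
      let QN : Subgroup N := (Q : Subgroup G).subgroupOf N
      have hPN : IsPGroup p PN := P.isPGroup'.comap_subtype
      have hQN : IsPGroup p QN := Q.isPGroup'.comap_subtype
      obtain ⟨S, hS⟩ := hPN.exists_le_sylow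
      obtain ⟨T, hT⟩ := hQN.exists_le_sylow
      obtain ⟨c0, hc0, hST⟩ := cent C hCn hpow S T
      have hSm : IsPGroup p ((S : Subgroup N).map N.subtype) := S.isPGroup'.map _
      obtain ⟨R, hR⟩ := hSm.exists_le_sylow
      obtain ⟨R', hR'⟩ := smul_iff R (c0 : G)
      have hDN : ∀ z ∈ D, z ∈ N := by
        intro z hz
        rw [hN]
        intro w
        constructor
        · intro hw
          exact D.mul_mem (D.mul_mem hz hw) (D.inv_mem hz)
        · intro hw
          have := D.mul_mem (D.mul_mem (D.inv_mem hz) hw) hz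
          have e : z⁻¹ * (z * w * z⁻¹) * z = w := by group
          rwa [e] at this
      have hPR : ∀ z ∈ P, z ∈ N → z ∈ R := by
        intro z hz hzN
        apply hR
        exact ⟨⟨z, hzN⟩, hS hz, rfl⟩
      have hQR' : ∀ z ∈ Q, z ∈ N → z ∈ R' := by
        intro z hz hzN
        rw [hR']
        have h1 : (⟨z, hzN⟩ : N) ∈ T := hT hz
        rw [hST] at h1
        apply hR
        exact ⟨_, h1, rfl⟩
      have hDR : D ≤ (P : Subgroup G) ⊓ (R : Subgroup G) :=
        le_inf inf_le_left (fun z hz => hPR z hz.1 (hDN z hz))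
      have hDR' : D ≤ (R' : Subgroup G) ⊓ (Q : Subgroup G) :=
        le_inf (fun z hz => hQR' z hz.2 (hDN z hz)) inf_le_right
      have hxR : x ∈ (P : Subgroup G) ⊓ (R : Subgroup G) := ⟨hxP, hPR x hxP ((hN x).2 hxN)⟩
      have hyR : y ∈ (R' : Subgroup G) ⊓ (Q : Subgroup G) := ⟨hQR' y hyQ ((hN y).2 hyN), hyQ⟩
      have c1 := card_lt _ _ hDR x hxR hxD
      have c2 := card_lt _ _ hDR' y hyR hyD
      have c3 := Subgroup.card_le_card_group ((P : Subgroup G) ⊓ (R : Subgroup G))
      have c4 := Subgroup.card_le_card_group ((R' : Subgroup G) ⊓ (Q : Subgroup G))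
      obtain ⟨a, ha1, ha2⟩ := ih P R (by omega)
      obtain ⟨b, hb1, hb2⟩ := ih R' Q (by omega)
      have hc0' : ∀ z ∈ D, z * (c0 : G) = (c0 : G) * z := (hCm c0).1 hc0
      refine ⟨b * (c0 : G) * a, ?_, ?_⟩
      · intro z hzP hzQ
        have hzD : z ∈ D := ⟨hzP, hzQ⟩
        have e1 := ha1 z hzP (hDR hzD).2
        have e2 := (hc0' z hzD).symm
        have e3 := hb1 z (hDR' hzD).1 hzQ
        calc b * (c0 : G) * a * z = b * ((c0 : G) * (a * z)) := by group
          _ = b * ((c0 : G) * z) * a := by rw [e1]; group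
          _ = (b * z) * (c0 : G) * a := by rw [e2]; group
          _ = z * (b * (c0 : G) * a) := by rw [e3]; group
      · intro z
        rw [ha2 z]
        have h1 := hR' ((c0 : G) * (a * z * a⁻¹) * (c0 : G)⁻¹)
        have e1 : (c0 : G)⁻¹ * ((c0 : G) * (a * z * a⁻¹) * (c0 : G)⁻¹) * (c0 : G) =
            a * z * a⁻¹ := by group
        rw [e1] at h1
        rw [← h1, hb2]
        have e2 : b * ((c0 : G) * (a * z * a⁻¹) * (c0 : G)⁻¹) * b⁻¹ =
            b * (c0 : G) * a * z * (b * (c0 : G) * a)⁻¹ := by group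
        rw [e2]
  intro P Q
  exact key _ P Q le_rfl

end Pool.ENR
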