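import Pool.Agent.H14.ENR.Stmts4

set_option autoImplicit false

namespace Pool.ENR

theorem smo_thm : SMOStmt := by
  intro T _ p m M σ hmM hS
  obtain ⟨Γ, D, hΓ, hD, hDΓ, hn, hp, h0, x, hx, hxD⟩ := hS
  refine ⟨Γ, D, hΓ, hD, hDΓ, hn, hp, h0, ?_⟩
  by_contra hcon
  push Not at hcon
  have hpow : ∀ (k : ℕ) (y : T), y ∈ Γ → (σ ^ k) y ∈ Γ := by
    intro k
    induction k with
    | zero => intro y hy; simpa using hy
    | succ k ih =>
      intro y hy
      rw [pow_succ, MulAut.mul_apply]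
      exact ih _ ((hΓ y).1 hy)
  have key : ∀ (l : ℕ) (y : T), y ∈ Γ → ((σ ^ (p ^ m)) ^ l) y * y⁻¹ ∈ D := by
    intro l
    induction l with
    | zero => intro y _; simp
    | succ l ih =>
      intro y hy
      have h1 := ih ((σ ^ (p ^ m)) y) (hpow _ _ hy)
      have h2 := hcon y hy
      have h3 := D.mul_mem h1 h2
      rw [pow_succ, MulAut.mul_apply]
      have e : ((σ ^ (p ^ m)) ^ l) ((σ ^ (p ^ m)) y) * ((σ ^ (p ^ m)) y)⁻¹ *
          ((σ ^ (p ^ m)) y * y⁻¹) = ((σ ^ (p ^ m)) ^ l) ((σ ^ (p ^ m)) y) * y⁻¹ := by group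
      rw [← e]
      exact h3
  apply hxD
  have h4 := key (p ^ (M - m)) x hx
  rw [← pow_mul, ← pow_add, Nat.add_sub_cancel' hmM] at h4
  exact h4

end Pool.ENR
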