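import Pool.Agent.H36.ENR.Stmts2

set_option autoImplicit false
set_option linter.unusedVariables false

namespace Pool.ENR

open Pool.Agent.H81.ENG Pool.Agent.H55.NEU

namespace TRIaux

theorem ee_hh {F : Type} [Field F] (c : Fˣ) :
    ee (c * c) (1 : F ≃+* F) = MulAut.conj (pr (hh c)) := by
  ext x
  obtain ⟨M, rfl⟩ := pr_surj x
  rw [MulAut.conj_apply, ee_pr, ← map_inv, ← map_mul, ← map_mul]
  congr 1
  have h3 : (c : F) * ((c⁻¹ : Fˣ) : F) = 1 := Units.mul_inv c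
  have e0 : hh c * M * (hh c)⁻¹ =
      hh c * mk2 (M 0 0) (M 0 1) (M 1 0) (M 1 1) (sl_det M) * (hh c)⁻¹ := by
    rw [← eq_mk2]
  rw [e0, EE_apply]
  unfold hh
  rw [mk2_inv, mk2_mul, mk2_mul]
  apply mk2_congr
  · change M 0 0 = ((c : F) * M 0 0 + 0 * M 1 0) * ((c⁻¹ : Fˣ) : F) +
      ((c : F) * M 0 1 + 0 * M 1 1) * -0
    linear_combination (-(M 0 0)) * h3
  · change (((c * c : Fˣ) : F)) * M 0 1 = ((c : F) * M 0 0 + 0 * M 1 0) * -0 +
      ((c : F) * M 0 1 + 0 * M 1 1) * (c : F)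
    rw [Units.val_mul]
    ring
  · change (((c * c)⁻¹ : Fˣ) : F) * M 1 0 = (0 * M 0 0 + ((c⁻¹ : Fˣ) : F) * M 1 0) *
      ((c⁻¹ : Fˣ) : F) + (0 * M 0 1 + ((c⁻¹ : Fˣ) : F) * M 1 1) * -0
    rw [mul_inv, Units.val_mul]
    ring
  · change M 1 1 = (0 * M 0 0 + ((c⁻¹ : Fˣ) : F) * M 1 0) * -0 +
      (0 * M 0 1 + ((c⁻¹ : Fˣ) : F) * M 1 1) * (c : F)
    linear_combination (-(M 1 1)) * h3

theorem ee_uu {F : Type} [Field F] (c : Fˣ) (φ : F ≃+* F) (x : F) :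
    ee c φ (pr (uu x)) = pr (uu (c * φ x)) := by
  rw [ee_pr]
  congr 1
  rw [EE_apply]
  unfold uu
  apply mk2_congr
  · change φ 1 = 1
    exact map_one φ
  · rfl
  · change ((c⁻¹ : Fˣ) : F) * φ 0 = 0
    rw [map_zero, mul_zero]
  · change φ 1 = 1
    exact map_one φ

end TRIaux

open TRIaux in
theorem tri_thm : TRIStmt := by
  intro F _ _ α hα
  obtain ⟨g, c, hgc⟩ := fld_spec α
  obtain ⟨M, rfl⟩ := pr_surj g
  generalize fld α = φ at hgc ⊢
  have hx : ∀ x : F, α (pr (uu x)) = pr (M * uu ((c : F) * φ x) * M⁻¹) := by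
    intro x
    rw [hgc, MulAut.mul_apply, ee_uu, MulAut.conj_apply, map_mul, map_mul, map_inv]
  have h1 : (c : F) * φ (φ.symm ((c⁻¹ : Fˣ) : F)) = 1 := by
    rw [φ.apply_symm_apply, Units.mul_inv]
  have h2 := hα (φ.symm ((c⁻¹ : Fˣ) : F))
  rw [hx, h1, conj_uu, pr_mem_UU] at h2
  have h3 : -(M 1 0 * M 1 0 * 1) = 0 := h2.1
  have h10 : M 1 0 = 0 := by
    rw [mul_one, neg_eq_zero] at h3
    rcases mul_eq_zero.1 h3 with h | h <;> exact h
  have hd : M 0 0 * M 1 1 = 1 := by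
    have := sl_det M
    rw [h10, mul_zero, sub_zero] at this
    exact this
  let a : Fˣ := ⟨M 0 0, M 1 1, hd, by rw [mul_comm]; exact hd⟩
  have hM : M = uu (M 0 1 * M 0 0) * hh a := by
    have e : uu (M 0 1 * M 0 0) * hh a = mk2 (M 0 0) (M 0 1) 0 (M 1 1) (by rw [hd]; ring) := by
      unfold uu hh
      rw [mk2_mul]
      apply mk2_congr
      · change 1 * M 0 0 + M 0 1 * M 0 0 * 0 = M 0 0
        ring
      · change 1 * 0 + M 0 1 * M 0 0 * M 1 1 = M 0 1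
        linear_combination M 0 1 * hd
      · change 0 * M 0 0 + 1 * 0 = (0 : F)
        ring
      · change 0 * 0 + 1 * M 1 1 = M 1 1
        ring
    rw [e]
    apply sl_ext
    · rfl
    · rfl
    · exact h10
    · rfl
  refine ⟨M 0 1 * M 0 0, a * a * c, ?_⟩
  have h4 : ee (a * a * c) φ = ee (a * a) (1 : F ≃+* F) * ee c φ := by
    rw [ee_mul, one_mul]
    rfl
  rw [h4, ee_hh, ← mul_assoc, ← map_mul, ← map_mul, ← hM]
  exact hgc

end Pool.ENR
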